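import Mathlib
import Pool.Agent.Q212.Planch

/-!
# Sums of the first rows of a Plancherel-random partition need not be log-concave
-/

namespace Pool.Agent.Results.MP_64a7c6_pr.SumsNotLogConcave

open Pool.Agent.Q212.Planch

/-- For `n = 9`, `r = 7`, `j = 8` one has `μ_n(S_r = j-1) μ_n(S_r = j+1) > μ_n(S_r = j)^2`, so the
law of `S_r = λ_1 + ... + λ_r` under the Plancherel measure is not always log-concave. -/
theorem result : ∃ n r j : ℕ, 1 ≤ n ∧ 2 ≤ r ∧ 1 ≤ j ∧
    prob n r j ^ 2 < prob n r (j - 1) * prob n r (j + 1) :=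
  ⟨9, 7, 8, by norm_num, by norm_num, by norm_num, main⟩

end Pool.Agent.Results.MP_64a7c6_pr.SumsNotLogConcave
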